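import Mathlib
import Pool.Agent.H.MP_3da572_an.C

set_option autoImplicit false

namespace Pool.Agent.Results.MP_3da572_an.No

open scoped ENNReal

instance : Fact (1 ≤ (4 : ℝ≥0∞)) := ⟨by norm_num⟩

/-- moduli of the points of the numerical range -/
def range {X : Type} [NormedAddCommGroup X] [NormedSpace ℂ X] (T : X →L[ℂ] X) : Set ℝ :=
  {r | ∃ (x : X) (l : X →L[ℂ] ℂ), ‖x‖ = 1 ∧ ‖l‖ = 1 ∧ l x = 1 ∧ r = ‖l (T x)‖}

/-- numerical index of a complex normed space -/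
noncomputable def index (X : Type) [NormedAddCommGroup X] [NormedSpace ℂ X] : ℝ :=
  sInf {r | ∃ T : X →L[ℂ] X, ‖T‖ = 1 ∧ r = sSup (range T)}

theorem result : index (lp (fun _ : ℕ => ℂ) 4) ≤ 0.53735 ∧
    0.5374 ≤ index (PiLp 4 fun _ : Fin 2 => ℂ) ∧
    index (lp (fun _ : ℕ => ℂ) 4) ≠ index (PiLp 4 fun _ : Fin 2 => ℂ) := by
  have h1 : index (lp (fun _ : ℕ => ℂ) 4) ≤ 0.53735 := by
    obtain ⟨T, h1, h2⟩ := H.MP_3da572_an.upperX
    refine le_trans (b := sSup (range T)) (csInf_le ⟨0, ?_⟩ ⟨T, h1, rfl⟩)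
      (Real.sSup_le ?_ (by norm_num))
    · rintro _ ⟨S, -, rfl⟩
      exact Real.sSup_nonneg (by rintro _ ⟨x, l, -, -, -, rfl⟩; exact norm_nonneg _)
    · rintro _ ⟨x, l, a, b, c, rfl⟩
      exact (h2 x l a b c).trans (by norm_num)
  have h2 : 0.5374 ≤ index (PiLp 4 fun _ : Fin 2 => ℂ) := by
    refine le_csInf ⟨_, ContinuousLinearMap.id ℂ _, ContinuousLinearMap.norm_id, rfl⟩ ?_
    rintro _ ⟨S, hS, rfl⟩
    by_contra! k
    refine (H.MP_3da572_an.lowerE S fun x l a b c => ?_).ne hS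
    refine le_trans (b := sSup (range S)) (le_csSup ⟨1, ?_⟩ ⟨x, l, a, b, c, rfl⟩)
      (k.le.trans (by norm_num))
    rintro _ ⟨x, l, a, b, -, rfl⟩
    simpa [a, b, hS] using (l.le_opNorm (S x)).trans
      (mul_le_mul_of_nonneg_left (S.le_opNorm x) (norm_nonneg l))
  exact ⟨h1, h2, ne_of_lt (by linarith)⟩

end Pool.Agent.Results.MP_3da572_an.No
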